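import Pool.Agent.H7.KQ.Stmts

/-!
# Board kq, row BAS: the nearly complete case
-/

set_option autoImplicit false

open Finset

namespace Pool.KQ

open Pool.Agent.H23.KT Pool.Agent.H46.KW

namespace BASaux

variable {V : Type}

open Classical in
/-- `1` if `f i`, `f k` are not adjacent. -/
noncomputable def bd (G : SimpleGraph V) {b : ℕ} (f : Fin b → V) (i k : Fin b) : ℝ :=
  if G.Adj (f i) (f k) then 0 else 1

/-- The number of `k ≠ i` with `f i`, `f k` not adjacent. -/
noncomputable def dg (G : SimpleGraph V) {b : ℕ} (f : Fin b → V) (i : Fin b) : ℝ :=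
  ∑ k ∈ univ.erase i, bd G f i k

/-- The number of ordered pairs. -/
noncomputable def mm (G : SimpleGraph V) {b : ℕ} (f : Fin b → V) : ℝ :=
  ∑ i, dg G f i

lemma bd_nonneg (G : SimpleGraph V) {b : ℕ} (f : Fin b → V) (i k : Fin b) : 0 ≤ bd G f i k := by
  unfold bd; split_ifs <;> norm_num

lemma bd_le_one (G : SimpleGraph V) {b : ℕ} (f : Fin b → V) (i k : Fin b) : bd G f i k ≤ 1 := by
  unfold bd; split_ifs <;> norm_num

lemma bd_sq (G : SimpleGraph V) {b : ℕ} (f : Fin b → V) (i k : Fin b) :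
    bd G f i k * bd G f i k = bd G f i k := by
  unfold bd; split_ifs <;> norm_num

lemma bd_symm (G : SimpleGraph V) {b : ℕ} (f : Fin b → V) (i k : Fin b) :
    bd G f i k = bd G f k i := by
  unfold bd
  rw [G.adj_comm]

lemma mm_eq (G : SimpleGraph V) {b : ℕ} (f : Fin b → V) :
    mm G f = ∑ x ∈ (univ : Finset (Fin b)).offDiag, bd G f x.1 x.2 := by
  unfold mm dg
  rw [Finset.sum_sigma']
  refine Finset.sum_nbij' (fun x => (x.1, x.2)) (fun x => ⟨x.1, x.2⟩) ?_ ?_ ?_ ?_ ?_
  · rintro ⟨i, k⟩ h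
    simp only [mem_sigma, mem_univ, mem_erase, ne_eq, true_and, and_true] at h
    simp only [mem_offDiag, mem_univ, ne_eq, true_and]
    exact fun h' => h h'.symm
  · rintro ⟨i, k⟩ h
    simp only [mem_offDiag, mem_univ, ne_eq, true_and] at h
    simp only [mem_sigma, mem_univ, mem_erase, ne_eq, true_and, and_true]
    exact fun h' => h h'.symm
  · rintro ⟨i, k⟩ _
    rfl
  · rintro ⟨i, k⟩ _
    rfl
  · rintro ⟨i, k⟩ _
    rfl

/-- `d (d - 1)`. -/
lemma dg_sq (G : SimpleGraph V) {b : ℕ} (f : Fin b → V) (i : Fin b) :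
    dg G f i * (dg G f i - 1) =
      ∑ k ∈ univ.erase i, ∑ l ∈ (univ.erase i).erase k, bd G f i k * bd G f i l := by
  have h : dg G f i * dg G f i =
      ∑ k ∈ univ.erase i, (bd G f i k + ∑ l ∈ (univ.erase i).erase k, bd G f i k * bd G f i l) := by
    unfold dg
    rw [Finset.sum_mul_sum]
    refine Finset.sum_congr rfl fun k hk => ?_
    rw [← Finset.add_sum_erase _ _ hk, bd_sq]
  rw [mul_sub, mul_one, h, Finset.sum_add_distrib]
  unfold dg
  ring

/-- `m (m - 2)`. -/
lemma mm_sq (G : SimpleGraph V) {b : ℕ} (f : Fin b → V) :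
    mm G f * (mm G f - 2) =
      ∑ x ∈ (univ : Finset (Fin b)).offDiag, ∑ y ∈ ((univ : Finset (Fin b)).offDiag.erase x).erase
        (x.2, x.1), bd G f x.1 x.2 * bd G f y.1 y.2 := by
  have h : mm G f * mm G f = ∑ x ∈ (univ : Finset (Fin b)).offDiag, (2 * bd G f x.1 x.2 +
      ∑ y ∈ ((univ : Finset (Fin b)).offDiag.erase x).erase
        (x.2, x.1), bd G f x.1 x.2 * bd G f y.1 y.2) := by
    rw [mm_eq, Finset.sum_mul_sum]
    refine Finset.sum_congr rfl fun x hx => ?_
    have hx' : (x.2, x.1) ∈ (univ : Finset (Fin b)).offDiag.erase x := by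
      rcases x with ⟨i, k⟩
      simp only [mem_offDiag, mem_univ, ne_eq, true_and] at hx
      simp only [mem_erase, mem_offDiag, mem_univ, ne_eq, true_and, Prod.mk.injEq, not_and]
      exact ⟨fun h1 _ => hx h1.symm, fun h1 => hx h1.symm⟩
    rw [← Finset.add_sum_erase _ _ hx, bd_sq, ← Finset.add_sum_erase _ _ hx']
    simp only
    rw [bd_symm G f x.2 x.1, bd_sq]
    ring
  rw [mul_sub, h, Finset.sum_add_distrib, ← Finset.mul_sum, ← mm_eq]
  ring

variable [DecidableEq V]

omit [DecidableEq V] in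
lemma sum_update {b : ℕ} (P : Fin b → Finset V) (i : Fin b) (F : (Fin b → V) → ℝ) :
    ∑ f ∈ Fintype.piFinset P, ∑ z ∈ P i, F (Function.update f i z) =
      ((P i).card : ℝ) * ∑ f ∈ Fintype.piFinset P, F f := by
  have h1 : ∑ x ∈ Fintype.piFinset P ×ˢ P i, F (Function.update x.1 i x.2) =
      ∑ x ∈ Fintype.piFinset P ×ˢ P i, F x.1 := by
    refine Finset.sum_nbij' (fun x => (Function.update x.1 i x.2, x.1 i))
      (fun x => (Function.update x.1 i x.2, x.1 i)) ?_ ?_ ?_ ?_ ?_
    · rintro ⟨f, z⟩ h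
      simp only [mem_product, Fintype.mem_piFinset] at h ⊢
      refine ⟨fun k => ?_, h.1 i⟩
      rcases eq_or_ne k i with rfl | hk
      · rw [Function.update_self]; exact h.2
      · rw [Function.update_of_ne hk]; exact h.1 k
    · rintro ⟨f, z⟩ h
      simp only [mem_product, Fintype.mem_piFinset] at h ⊢
      refine ⟨fun k => ?_, h.1 i⟩
      rcases eq_or_ne k i with rfl | hk
      · rw [Function.update_self]; exact h.2
      · rw [Function.update_of_ne hk]; exact h.1 k
    · rintro ⟨f, z⟩ _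
      simp
    · rintro ⟨f, z⟩ _
      simp
    · rintro ⟨f, z⟩ _
      rfl
  rw [Finset.sum_product, Finset.sum_product] at h1
  rw [h1]
  simp only [sum_const, nsmul_eq_mul]
  rw [Finset.mul_sum]

/-- Fixing all coordinates but one. -/
lemma fix_one (G : SimpleGraph V) {b : ℕ} (P : Fin b → Finset V) {a e E : ℝ} (ha : 0 < a)
    (he : e ≤ 1 / 2) (hlo : ∀ i, (1 - e) * a ≤ ((P i).card : ℝ))
    (hmis : ∀ i, ∀ u ∈ P i, ∀ k, k ≠ i → ((non G (P k) u).card : ℝ) ≤ E * a)
    (i k j l : Fin b) (hi : l ≠ i) (hk : l ≠ k) (hj : l ≠ j) :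
    ∑ f ∈ Fintype.piFinset P, bd G f i k * bd G f j l ≤
      2 * E * ∑ f ∈ Fintype.piFinset P, bd G f i k := by
  classical
  have h1 := sum_update P l (fun f => bd G f i k * bd G f j l)
  have h2 : ∀ f ∈ Fintype.piFinset P,
      ∑ z ∈ P l, bd G (Function.update f l z) i k * bd G (Function.update f l z) j l ≤
        bd G f i k * (E * a) := by
    intro f hf
    have h3 : ∑ z ∈ P l, bd G (Function.update f l z) i k * bd G (Function.update f l z) j l =
        bd G f i k * ((non G (P l) (f j)).card : ℝ) := by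
      rw [non, Finset.card_filter]
      push_cast
      rw [Finset.mul_sum]
      refine Finset.sum_congr rfl fun z _ => ?_
      unfold bd
      rw [Function.update_of_ne hi.symm, Function.update_of_ne hk.symm,
        Function.update_of_ne hj.symm, Function.update_self]
      congr 1
      by_cases h : G.Adj (f j) z <;> simp [h]
    rw [h3]
    exact mul_le_mul_of_nonneg_left (hmis j (f j) (Fintype.mem_piFinset.1 hf j) l hj)
      (bd_nonneg G f i k)
  have h4 := Finset.sum_le_sum h2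
  rw [h1, ← Finset.sum_mul] at h4
  have h5 : a / 2 ≤ ((P l).card : ℝ) := by
    refine le_trans ?_ (hlo l)
    nlinarith
  have h6 : 0 ≤ ∑ f ∈ Fintype.piFinset P, bd G f i k * bd G f j l :=
    Finset.sum_nonneg fun f _ => mul_nonneg (bd_nonneg G f i k) (bd_nonneg G f j l)
  have h7 := mul_le_mul_of_nonneg_right h5 h6
  have h8 : a * (∑ f ∈ Fintype.piFinset P, bd G f i k * bd G f j l) ≤
      a * (2 * E * ∑ f ∈ Fintype.piFinset P, bd G f i k) := by
    nlinarith
  exact le_of_mul_le_mul_left h8 ha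

lemma fix_pair (G : SimpleGraph V) {b : ℕ} (P : Fin b → Finset V) {a e E : ℝ} (ha : 0 < a)
    (he : e ≤ 1 / 2) (hlo : ∀ i, (1 - e) * a ≤ ((P i).card : ℝ))
    (hmis : ∀ i, ∀ u ∈ P i, ∀ k, k ≠ i → ((non G (P k) u).card : ℝ) ≤ E * a)
    (i k j l : Fin b) (hjl : j ≠ l) (h1 : ¬ (j = i ∧ l = k)) (h2 : ¬ (j = k ∧ l = i)) :
    ∑ f ∈ Fintype.piFinset P, bd G f i k * bd G f j l ≤
      2 * E * ∑ f ∈ Fintype.piFinset P, bd G f i k := by
  by_cases hl : l = i ∨ l = k
  · have hj : j ≠ i ∧ j ≠ k := by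
      rcases hl with rfl | rfl
      · exact ⟨hjl, fun h => h2 ⟨h, rfl⟩⟩
      · exact ⟨fun h => h1 ⟨h, rfl⟩, hjl⟩
    have h3 := fix_one G P ha he hlo hmis i k l j hj.1 hj.2 hjl
    have h4 : ∑ f ∈ Fintype.piFinset P, bd G f i k * bd G f j l =
        ∑ f ∈ Fintype.piFinset P, bd G f i k * bd G f l j :=
      Finset.sum_congr rfl fun f _ => by rw [bd_symm G f j l]
    rw [h4]
    exact h3
  · push Not at hl
    exact fix_one G P ha he hlo hmis i k j l hl.1 hl.2 hjl.symm

/-- The weight of one vertex. -/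
lemma gw_le (G : SimpleGraph V) {p : ℕ} (P : Fin (p + 3) → Finset V) (hP : Par G P)
    {f : Fin (p + 3) → V} (hf : f ∈ trv G P) (i : Fin (p + 3)) {z : V} (hz : z ∈ P i) :
    gw p (nb G (univ.image f) z).card ≤
      gam p * dg G (Function.update f i z) i +
        1 / 2 * (dg G (Function.update f i z) i * (dg G (Function.update f i z) i - 1)) := by
  classical
  unfold trv at hf
  rw [mem_filter, Fintype.mem_piFinset] at hf
  obtain ⟨hfP, hfa⟩ := hf
  have hinj : Function.Injective f := by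
    intro j l h
    by_contra hjl
    have := hfa j l hjl
    rw [h] at this
    exact G.loopless.irrefl _ this
  have hnb : (nb G (univ.image f) z).card = ((univ.erase i).filter (fun k => G.Adj z (f k))).card := by
    have h1 : nb G (univ.image f) z = ((univ.erase i).filter (fun k => G.Adj z (f k))).image f := by
      ext y
      rw [mem_nb]
      simp only [mem_image, mem_univ, true_and, mem_filter, mem_erase, ne_eq, and_true]
      constructor
      · rintro ⟨⟨k, rfl⟩, h⟩
        refine ⟨k, ⟨?_, h⟩, rfl⟩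
        rintro rfl
        exact hP.ind k z hz (f k) (hfP k) h
      · rintro ⟨k, ⟨_, h⟩, rfl⟩
        exact ⟨⟨k, rfl⟩, h⟩
    rw [h1, Finset.card_image_of_injective _ hinj]
  have hdg : dg G (Function.update f i z) i =
      (((univ.erase i).filter (fun k => ¬ G.Adj z (f k))).card : ℝ) := by
    unfold dg
    rw [Finset.card_filter]
    push_cast
    refine Finset.sum_congr rfl fun k hk => ?_
    unfold bd
    rw [Function.update_self, Function.update_of_ne (mem_erase.1 hk).1]
    by_cases h : G.Adj z (f k) <;> simp [h]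
  have hsum := Finset.card_filter_add_card_filter_not (s := (univ : Finset (Fin (p + 3))).erase i)
    (fun k => G.Adj z (f k))
  rw [Finset.card_erase_of_mem (mem_univ i), Finset.card_univ, Fintype.card_fin] at hsum
  rw [hnb, hdg]
  generalize ((univ.erase i).filter (fun k => G.Adj z (f k))).card = n at hsum ⊢
  generalize ((univ.erase i).filter (fun k => ¬ G.Adj z (f k))).card = μ at hsum ⊢
  have hn : n + μ = p + 2 := by omega
  have hgam : 0 ≤ gam p := by unfold gam; positivity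
  unfold gw
  rcases μ with _ | _ | μ
  · have : n = p + 2 := by omega
    rw [if_pos this]
    simp
  · have h1 : n ≠ p + 2 := by omega
    have h2 : n = p + 1 := by omega
    rw [if_neg h1, if_pos h2]
    simp
  · have h1 : n ≠ p + 2 := by omega
    have h2 : n ≠ p + 1 := by omega
    rw [if_neg h1, if_neg h2]
    push_cast
    have h3 : (0 : ℝ) ≤ μ := Nat.cast_nonneg _
    have h4 : 0 ≤ gam p * ((μ : ℝ) + 1 + 1) := by positivity
    nlinarith

omit [DecidableEq V] in
lemma dg_nat (G : SimpleGraph V) {b : ℕ} (f : Fin b → V) (i : Fin b) :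
    0 ≤ dg G f i ∧ 0 ≤ dg G f i * (dg G f i - 1) := by
  refine ⟨Finset.sum_nonneg fun k _ => bd_nonneg G f i k, ?_⟩
  rw [dg_sq]
  exact Finset.sum_nonneg fun k _ => Finset.sum_nonneg fun l _ =>
    mul_nonneg (bd_nonneg G f i k) (bd_nonneg G f i l)

/-- The number of broken transversals. -/
lemma broken (G : SimpleGraph V) {b : ℕ} (P : Fin b → Finset V) :
    ∑ f ∈ Fintype.piFinset P, (1 / 2 * mm G f - 1 / 4 * (mm G f * (mm G f - 2))) ≤
      (∏ i, ((P i).card : ℝ)) - (trv G P).card := by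
  classical
  have h1 : (∏ i, ((P i).card : ℝ)) - (trv G P).card =
      ∑ f ∈ Fintype.piFinset P, (if f ∈ trv G P then (0 : ℝ) else 1) := by
    have h2 : ∑ f ∈ Fintype.piFinset P, (if f ∈ trv G P then (0 : ℝ) else 1) =
        ∑ f ∈ Fintype.piFinset P, ((1 : ℝ) - (if f ∈ trv G P then (1 : ℝ) else 0)) :=
      Finset.sum_congr rfl fun f _ => by split_ifs <;> norm_num
    rw [h2, Finset.sum_sub_distrib]
    congr 1
    · rw [Finset.sum_const, Fintype.card_piFinset, nsmul_eq_mul, mul_one]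
      push_cast
      rfl
    · rw [Finset.sum_boole]
      congr 2
      ext f
      rw [mem_filter]
      unfold trv
      rw [mem_filter]
      tauto
  rw [h1]
  refine Finset.sum_le_sum fun f hf => ?_
  split_ifs with h
  · have h2 : mm G f = 0 := by
      unfold trv at h
      rw [mem_filter] at h
      rw [mm_eq]
      refine Finset.sum_eq_zero fun x hx => ?_
      unfold bd
      rw [if_pos (h.2 x.1 x.2 (mem_offDiag.1 hx).2.2)]
    rw [h2]
    norm_num
  · nlinarith [sq_nonneg (mm G f - 2)]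

lemma num (p : ℕ) {e : ℝ} (he0 : 0 ≤ e) (he : e ≤ e1 p) :
    (1 + e) * (gam p + 1 / 2 * ((p + 3) * (2 * e1 p))) ≤
      1 / 2 - 1 / 4 * ((p + 3) ^ 2 * (2 * e1 p)) := by
  have hp : (0 : ℝ) ≤ p := Nat.cast_nonneg _
  set x : ℝ := (p : ℝ) + 3 with hx
  have hx3 : 3 ≤ x := by linarith
  have hgam : gam p = 1 / 2 - 1 / (2 * (x - 1)) := by
    unfold gam
    have : x - 1 = (p : ℝ) + 2 := by rw [hx]; ring
    rw [this]
    field_simp
    ring
  have he1 : e1 p = 1 / (16 * x ^ 3) := by
    unfold e1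
    rw [hx]
  have hx0 : 0 < x := by linarith
  have h1 : 1 / (2 * x) ≤ 1 / (2 * (x - 1)) := by
    apply one_div_le_one_div_of_le <;> linarith
  have h2 : x * (2 * e1 p) = 1 / (8 * x ^ 2) := by
    rw [he1]; field_simp; ring
  have h3 : x ^ 2 * (2 * e1 p) = 1 / (8 * x) := by
    rw [he1]; field_simp; ring
  rw [h2, h3, hgam]
  set y : ℝ := 1 / x with hy
  have hy0 : 0 < y := by rw [hy]; positivity
  have hy3 : y ≤ 1 / 3 := by
    rw [hy]; apply one_div_le_one_div_of_le <;> linarith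
  have e1' : e1 p = y ^ 3 / 16 := by rw [he1, hy]; field_simp
  have e2' : 1 / (8 * x ^ 2) = y ^ 2 / 8 := by rw [hy]; field_simp
  have e3' : 1 / (8 * x) = y / 8 := by rw [hy]; field_simp
  have e4' : 1 / (2 * x) = y / 2 := by rw [hy]; field_simp
  rw [e2', e3']
  rw [e4'] at h1
  rw [e1'] at he
  have h5 : 1 / 2 - 1 / (2 * (x - 1)) + 1 / 2 * (y ^ 2 / 8) ≤ 1 / 2 - y / 2 + y ^ 2 / 16 := by
    linarith
  have h6 : (1 + e) * (1 / 2 - 1 / (2 * (x - 1)) + 1 / 2 * (y ^ 2 / 8)) ≤
      (1 + e) * (1 / 2 - y / 2 + y ^ 2 / 16) :=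
    mul_le_mul_of_nonneg_left h5 (by linarith)
  refine h6.trans ?_
  have h7 : y ^ 2 ≤ y / 3 := by nlinarith
  have h8 : y ^ 3 ≤ y / 9 := by nlinarith
  have h9 : e ≤ y / 144 := by linarith
  nlinarith

end BASaux

open BASaux in
theorem BAS (hTRV : TRVStmt) : BASStmt := by
  classical
  intro V _ G p a e P he0 he ha hP hsz hmis
  obtain ⟨hk, hF⟩ := hTRV G P hP
  rw [hF, hk]
  have haR : (0 : ℝ) < a := by exact_mod_cast (show 0 < a by omega)
  have hp : (0 : ℝ) ≤ p := Nat.cast_nonneg _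
  have he1 : 0 ≤ e1 p := by unfold e1; positivity
  have he2 : e ≤ 1 / 2 := by
    refine he.trans ?_
    unfold e1
    rw [div_le_div_iff₀ (by positivity) (by norm_num)]
    nlinarith [pow_le_pow_left₀ (by norm_num : (0 : ℝ) ≤ 3) (by linarith : (3 : ℝ) ≤ (p : ℝ) + 3) 3]
  have hgam : 0 ≤ gam p := by unfold gam; positivity
  have hlo : ∀ i, (1 - e) * (a : ℝ) ≤ ((P i).card : ℝ) := fun i => (hsz i).1
  set Ω := Fintype.piFinset P with hΩ
  set S : ℝ := ∑ f ∈ Ω, mm G f with hS
  -- the sum over ordered pairs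
  have hS0 : 0 ≤ S := Finset.sum_nonneg fun f _ => by
    unfold mm
    exact Finset.sum_nonneg fun i _ => (dg_nat G f i).1
  have hSo : S = ∑ x ∈ (univ : Finset (Fin (p + 3))).offDiag, ∑ f ∈ Ω, bd G f x.1 x.2 := by
    rw [hS, Finset.sum_comm]
    exact Finset.sum_congr rfl fun f _ => mm_eq G f
  have hSi : S = ∑ i, ∑ k ∈ univ.erase i, ∑ f ∈ Ω, bd G f i k := by
    rw [hS]
    unfold mm dg
    rw [Finset.sum_comm]
    refine Finset.sum_congr rfl fun i _ => ?_
    rw [Finset.sum_comm]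
  -- second moments
  have hD : ∑ i, ∑ f ∈ Ω, dg G f i * (dg G f i - 1) ≤ (p + 3) * (2 * e1 p) * S := by
    rw [hSi, Finset.mul_sum]
    refine Finset.sum_le_sum fun i _ => ?_
    rw [Finset.mul_sum]
    have h1 : ∑ f ∈ Ω, dg G f i * (dg G f i - 1) =
        ∑ k ∈ univ.erase i, ∑ l ∈ (univ.erase i).erase k, ∑ f ∈ Ω, bd G f i k * bd G f i l := by
      rw [Finset.sum_congr rfl fun f _ => dg_sq G f i, Finset.sum_comm]
      refine Finset.sum_congr rfl fun k _ => ?_
      rw [Finset.sum_comm]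
    rw [h1]
    refine Finset.sum_le_sum fun k hk' => ?_
    have hki : k ≠ i := (mem_erase.1 hk').1
    have h2 : ∀ l ∈ (univ.erase i).erase k, ∑ f ∈ Ω, bd G f i k * bd G f i l ≤
        2 * e1 p * ∑ f ∈ Ω, bd G f i k := by
      intro l hl
      rw [mem_erase, mem_erase] at hl
      exact fix_one G P haR he2 hlo hmis i k i l hl.2.1 hl.1 hl.2.1
    refine (Finset.sum_le_sum h2).trans ?_
    rw [Finset.sum_const, nsmul_eq_mul]
    have h3 : (((univ.erase i).erase k).card : ℝ) ≤ (p : ℝ) + 3 := by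
      have : ((univ.erase i).erase k).card ≤ p + 3 := by
        refine (Finset.card_le_univ _).trans ?_
        simp
      exact_mod_cast this
    have h4 : 0 ≤ 2 * e1 p * ∑ f ∈ Ω, bd G f i k :=
      mul_nonneg (by positivity) (Finset.sum_nonneg fun f _ => bd_nonneg G f i k)
    calc (((univ.erase i).erase k).card : ℝ) * (2 * e1 p * ∑ f ∈ Ω, bd G f i k)
        ≤ ((p : ℝ) + 3) * (2 * e1 p * ∑ f ∈ Ω, bd G f i k) :=
          mul_le_mul_of_nonneg_right h3 h4
      _ = ((p : ℝ) + 3) * (2 * e1 p) * ∑ f ∈ Ω, bd G f i k := by ring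
  have hM : ∑ f ∈ Ω, mm G f * (mm G f - 2) ≤ (p + 3) ^ 2 * (2 * e1 p) * S := by
    rw [hSo, Finset.mul_sum]
    have h1 : ∑ f ∈ Ω, mm G f * (mm G f - 2) =
        ∑ x ∈ (univ : Finset (Fin (p + 3))).offDiag,
          ∑ y ∈ ((univ : Finset (Fin (p + 3))).offDiag.erase x).erase (x.2, x.1),
            ∑ f ∈ Ω, bd G f x.1 x.2 * bd G f y.1 y.2 := by
      rw [Finset.sum_congr rfl fun f _ => mm_sq G f, Finset.sum_comm]
      refine Finset.sum_congr rfl fun x _ => ?_
      rw [Finset.sum_comm]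
    rw [h1]
    refine Finset.sum_le_sum fun x hx => ?_
    have h2 : ∀ y ∈ ((univ : Finset (Fin (p + 3))).offDiag.erase x).erase (x.2, x.1),
        ∑ f ∈ Ω, bd G f x.1 x.2 * bd G f y.1 y.2 ≤ 2 * e1 p * ∑ f ∈ Ω, bd G f x.1 x.2 := by
      intro y hy
      rw [mem_erase, mem_erase, mem_offDiag] at hy
      refine fix_pair G P haR he2 hlo hmis x.1 x.2 y.1 y.2 hy.2.2.2.2 ?_ ?_
      · rintro ⟨h3, h4⟩
        exact hy.2.1 (Prod.ext h3 h4)
      · rintro ⟨h3, h4⟩
        exact hy.1 (Prod.ext h3 h4)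
    refine (Finset.sum_le_sum h2).trans ?_
    rw [Finset.sum_const, nsmul_eq_mul]
    have h3 : ((((univ : Finset (Fin (p + 3))).offDiag.erase x).erase (x.2, x.1)).card : ℝ) ≤
        ((p : ℝ) + 3) ^ 2 := by
      have : (((univ : Finset (Fin (p + 3))).offDiag.erase x).erase (x.2, x.1)).card ≤
          (p + 3) ^ 2 := by
        refine (Finset.card_le_univ _).trans ?_
        rw [Fintype.card_prod, Fintype.card_fin, sq]
      exact_mod_cast this
    have h4 : 0 ≤ 2 * e1 p * ∑ f ∈ Ω, bd G f x.1 x.2 :=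
      mul_nonneg (by positivity) (Finset.sum_nonneg fun f _ => bd_nonneg G f _ _)
    calc ((((univ : Finset (Fin (p + 3))).offDiag.erase x).erase (x.2, x.1)).card : ℝ) *
          (2 * e1 p * ∑ f ∈ Ω, bd G f x.1 x.2)
        ≤ ((p : ℝ) + 3) ^ 2 * (2 * e1 p * ∑ f ∈ Ω, bd G f x.1 x.2) :=
          mul_le_mul_of_nonneg_right h3 h4
      _ = ((p : ℝ) + 3) ^ 2 * (2 * e1 p) * ∑ f ∈ Ω, bd G f x.1 x.2 := by ring
  -- broken transversals
  have hB : S * (1 / 2 - 1 / 4 * ((p + 3) ^ 2 * (2 * e1 p))) ≤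
      (∏ i, ((P i).card : ℝ)) - (trv G P).card := by
    refine le_trans ?_ (broken G P)
    rw [Finset.sum_sub_distrib, ← Finset.mul_sum, ← Finset.mul_sum]
    nlinarith
  -- the weights
  have hW : ∑ f ∈ trv G P, sw G p (un P) (univ.image f) ≤
      (1 + e) * a * (gam p * S + 1 / 2 * ((p + 3) * (2 * e1 p) * S)) := by
    have h1 : ∀ f ∈ trv G P, sw G p (un P) (univ.image f) ≤ ∑ i, ∑ z ∈ P i,
        (gam p * dg G (Function.update f i z) i +
        1 / 2 * (dg G (Function.update f i z) i * (dg G (Function.update f i z) i - 1))) := by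
      intro f hf
      unfold sw un
      rw [Finset.sum_biUnion]
      · exact Finset.sum_le_sum fun i _ => Finset.sum_le_sum fun z hz => gw_le G P hP hf i hz
      · intro i _ j _ hij
        exact hP.dis i j hij
    have hpos : ∀ f : Fin (p + 3) → V, ∀ i, 0 ≤ gam p * dg G f i +
        1 / 2 * (dg G f i * (dg G f i - 1)) := fun f i =>
      add_nonneg (mul_nonneg hgam (dg_nat G f i).1) (mul_nonneg (by norm_num) (dg_nat G f i).2)
    refine (Finset.sum_le_sum h1).trans ?_
    have h2 : ∑ f ∈ trv G P, ∑ i, ∑ z ∈ P i,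
        (gam p * dg G (Function.update f i z) i +
        1 / 2 * (dg G (Function.update f i z) i * (dg G (Function.update f i z) i - 1))) ≤
        ∑ f ∈ Ω, ∑ i, ∑ z ∈ P i,
        (gam p * dg G (Function.update f i z) i +
        1 / 2 * (dg G (Function.update f i z) i * (dg G (Function.update f i z) i - 1))) := by
      refine Finset.sum_le_sum_of_subset_of_nonneg (Finset.filter_subset _ _) fun f _ _ => ?_
      exact Finset.sum_nonneg fun i _ => Finset.sum_nonneg fun z _ => hpos _ _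
    refine h2.trans ?_
    rw [Finset.sum_comm]
    have h3 : ∀ i ∈ (univ : Finset (Fin (p + 3))), ∑ f ∈ Ω, ∑ z ∈ P i,
        (gam p * dg G (Function.update f i z) i +
        1 / 2 * (dg G (Function.update f i z) i * (dg G (Function.update f i z) i - 1))) ≤
        (1 + e) * a * ∑ f ∈ Ω, (gam p * dg G f i + 1 / 2 * (dg G f i * (dg G f i - 1))) := by
      intro i _
      rw [sum_update P i (fun f => gam p * dg G f i + 1 / 2 * (dg G f i * (dg G f i - 1)))]
      exact mul_le_mul_of_nonneg_right (hsz i).2 (Finset.sum_nonneg fun f _ => hpos f i)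
    refine (Finset.sum_le_sum h3).trans ?_
    rw [← Finset.mul_sum]
    refine mul_le_mul_of_nonneg_left ?_ (by positivity)
    have h4 : ∑ i, ∑ f ∈ Ω, (gam p * dg G f i + 1 / 2 * (dg G f i * (dg G f i - 1))) =
        gam p * S + 1 / 2 * ∑ i, ∑ f ∈ Ω, dg G f i * (dg G f i - 1) := by
      have h5 : S = ∑ i, ∑ f ∈ Ω, dg G f i := by
        rw [hS, Finset.sum_comm]
        rfl
      rw [h5, Finset.mul_sum, Finset.mul_sum, ← Finset.sum_add_distrib]
      refine Finset.sum_congr rfl fun i _ => ?_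
      rw [Finset.sum_add_distrib, Finset.mul_sum, Finset.mul_sum]
    rw [h4]
    linarith
  have hN := num p he0 he
  have h1 : (1 + e) * a * (gam p * S + 1 / 2 * ((p + 3) * (2 * e1 p) * S)) =
      a * (S * ((1 + e) * (gam p + 1 / 2 * ((p + 3) * (2 * e1 p))))) := by ring
  refine hW.trans ?_
  rw [h1]
  refine mul_le_mul_of_nonneg_left ?_ haR.le
  exact (mul_le_mul_of_nonneg_left hN hS0).trans hB

end Pool.KQ
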